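import Pool.Agent.Lib.MP_4fbe7c_an.ND.Base

/-!
SHO (project ND): closeness to the steady state persists for a unit of time.
-/

set_option autoImplicit false

open Set MeasureTheory

namespace Pool.Agent.Lib.MP_4fbe7c_an.ND.H23

open Pool.Agent.Lib.MP_4fbe7c_an.ND

theorem sho (hcmp : CmpStatement) (hpre : PreStatement) : ShoStatement := by
  classical
  intro p Ω q m N d i₀ θ θ' θ'' ε hΩ hm hd hθ hε
  obtain ⟨S, hS0, hS⟩ := hΩ.exists_bound hm
  obtain ⟨Θ, hΘ0, hΘ⟩ := hΩ.exists_bound hθ.c2.toC1.c0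
  have hS' : ∀ x ∈ closure Ω, m x ≤ S := fun x hx => (le_abs_self _).trans (hS x hx)
  have hΘ' : ∀ x ∈ closure Ω, θ x ≤ Θ := fun x hx => (le_abs_self _).trans (hΘ x hx)
  set E : ℝ := Real.exp S with hE
  have hE0 : 0 < E := Real.exp_pos _
  set W : ℝ := E * (1 + Θ * (N * E)) with hW
  have hW0 : 0 < W := by positivity
  set δ : ℝ := ε / (2 * W) with hδ
  have hδ0 : 0 < δ := by positivity
  have hδW : δ * W < ε := by
    have : δ * W = ε / 2 := by
      rw [hδ]
      field_simp
    linarith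
  have hδE : δ * E ≤ δ * W := by
    rw [hW]
    have : 0 ≤ E * (Θ * (N * E)) := by positivity
    nlinarith
  refine ⟨δ, hδ0, ?_⟩
  intro u v w hsol hnear t ht ht1 x hx
  have hnn : ∀ j, ∀ t, 0 ≤ t → ∀ x ∈ closure Ω, 0 ≤ u j t x :=
    fun j => (hpre p Ω q m N d u v w hΩ hm hd hsol j).1
  have hexp : ∀ s : ℝ, s ≤ 1 → Real.exp (S * s) ≤ E := by
    intro s hs
    apply Real.exp_le_exp.2
    nlinarith
  -- the other species
  have hj : ∀ j, j ≠ i₀ → ∀ s, 0 ≤ s → s ≤ 1 → ∀ y ∈ closure Ω, u j s y ≤ δ * E := by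
    intro j hji s hs hs1 y hy
    have e1 := hcmp p Ω q _ _ _ _ (d j) S δ 0 1 hΩ (hsol.evo j) (hd j) hS0.le hδ0.le le_rfl ?_ ?_
      s hs hs1 y hy
    · simp only [zero_mul, add_zero] at e1
      exact e1.trans (mul_le_mul_of_nonneg_left (hexp s hs1) hδ0.le)
    · intro r hr _ z hz hpos
      have a1 : 0 ≤ ∑ k, u k r z := Finset.sum_nonneg fun k _ => hnn k r hr.le z hz
      have a2 := hS' z hz
      have a3 : u j r z * (m z - ∑ k, u k r z) ≤ u j r z * S :=
        mul_le_mul_of_nonneg_left (by linarith) hpos.le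
      linarith
    · intro z hz
      exact ((hnear z hz).2 j hji).le
  have hV : ∀ s, 0 ≤ s → s ≤ 1 → ∀ y ∈ closure Ω,
      0 ≤ ∑ k ∈ Finset.univ.erase i₀, u k s y ∧
      ∑ k ∈ Finset.univ.erase i₀, u k s y ≤ N * (δ * E) := by
    intro s hs hs1 y hy
    refine ⟨Finset.sum_nonneg fun k _ => hnn k s hs y hy, ?_⟩
    calc ∑ k ∈ Finset.univ.erase i₀, u k s y
        ≤ ∑ _k ∈ Finset.univ.erase i₀, δ * E :=
          Finset.sum_le_sum fun k hk => hj k (Finset.ne_of_mem_erase hk) s hs hs1 y hy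
      _ ≤ ∑ _k : Fin N, δ * E :=
          Finset.sum_le_sum_of_subset_of_nonneg (Finset.erase_subset _ _)
            (fun _ _ _ => by positivity)
      _ = N * (δ * E) := by simp
  have hU : ∀ s y, ∑ k, u k s y = u i₀ s y + ∑ k ∈ Finset.univ.erase i₀, u k s y := by
    intro s y
    exact (Finset.add_sum_erase Finset.univ (fun k => u k s y) (Finset.mem_univ i₀)).symm
  have hθe := hθ.c2.evo hθ.neu
  have hup : u i₀ t x - θ x ≤ δ * E := by
    have e0 := (hsol.evo i₀).lin hθe 1 (-1)
    have e1 := hcmp p Ω q _ _ _ _ (d i₀) S δ 0 1 hΩ e0 (hd i₀) hS0.le hδ0.le le_rfl ?_ ?_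
      t ht ht1 x hx
    · simp only [zero_mul, add_zero, one_mul] at e1
      have := e1.trans (mul_le_mul_of_nonneg_left (hexp t ht1) hδ0.le)
      linarith
    · intro r hr hr1 z hz hpos
      simp only [one_mul] at hpos
      simp only [tr_add, tr_smul, one_mul, mul_zero, add_zero]
      have a1 := (hV r hr.le hr1 z hz).1
      have a2 := hθ.eq z hz
      have a3 := hnn i₀ r hr.le z hz
      have a4 := hθ.pos z hz
      have a5 := hS' z hz
      rw [hU]
      set V := ∑ k ∈ Finset.univ.erase i₀, u k r z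
      set a := u i₀ r z
      set b := θ z
      have a6 : (a - b) * (m z - b - a) ≤ (a - b) * S :=
        mul_le_mul_of_nonneg_left (by linarith) (by linarith)
      have a7 : 0 ≤ a * V := mul_nonneg a3 a1
      nlinarith
    · intro z hz
      have := (abs_lt.1 (hnear z hz).1).2
      linarith
  have hdown : θ x - u i₀ t x ≤ δ * W := by
    have e0 := (hsol.evo i₀).lin hθe (-1) 1
    have e1 := hcmp p Ω q _ _ _ _ (d i₀) S δ (Θ * (N * (δ * E))) 1 hΩ e0 (hd i₀) hS0.le hδ0.le
      (by positivity) ?_ ?_ t ht ht1 x hx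
    · have e2 : (δ + Θ * (N * (δ * E)) * t) * Real.exp (S * t) ≤
          (δ + Θ * (N * (δ * E)) * 1) * E := by
        have := hexp t ht1
        gcongr
      have e3 : (δ + Θ * (N * (δ * E)) * 1) * E = δ * W := by
        rw [hW]
        ring
      rw [e3] at e2
      have e4 := e1.trans e2
      linarith
    · intro r hr hr1 z hz hpos
      simp only [one_mul] at hpos
      simp only [tr_add, tr_smul, one_mul, mul_zero, add_zero]
      obtain ⟨a1, a1'⟩ := hV r hr.le hr1 z hz
      have a2 := hθ.eq z hz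
      have a3 := hnn i₀ r hr.le z hz
      have a4 := hθ.pos z hz
      have a5 := hS' z hz
      have a8 := hΘ' z hz
      rw [hU]
      set V := ∑ k ∈ Finset.univ.erase i₀, u k r z
      set a := u i₀ r z
      set b := θ z
      have a6 : (b - a) * (m z - b - a) ≤ (b - a) * S :=
        mul_le_mul_of_nonneg_left (by linarith) (by linarith)
      have a7 : a * V ≤ Θ * (N * (δ * E)) :=
        mul_le_mul (by linarith) a1' a1 hΘ0.le
      nlinarith
    · intro z hz
      have := (abs_lt.1 (hnear z hz).1).1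
      linarith
  refine ⟨?_, ?_⟩
  · rw [abs_lt]
    constructor <;> linarith
  · intro j hji
    have := hj j hji t ht ht1 x hx
    linarith

end Pool.Agent.Lib.MP_4fbe7c_an.ND.H23
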